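import Pool.Agent.TH639.SN.Proj

/-!
The Tate conjecture for the smooth cyclic coverings of the projective plane, of degree `N = ℓ ^ a`,
branched over a smooth plane curve with a number of rational points of the Jacobian prime to `ℓ`.
-/

set_option autoImplicit false
set_option maxHeartbeats 1000000

open Polynomial

namespace Pool.Agent.Results.MP_1bad5e_ag.CyclicPlanes

open Pool.Agent.TH639.SN

section defs

variable {k : Type} [Field k]

/-- The form `F` in three variables has the degree `d`, divisible by `N`, and has no singular zero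
different from the origin: the plane curve `F = 0` is smooth. -/
structure IsSmoothCurve (N d : ℕ) (F : MvPolynomial (Fin 3) k) : Prop where
  form : F.IsHomogeneous d
  pos : 0 < d
  degree : N ∣ d
  smooth : ∀ i, ∃ n : ℕ,
    MvPolynomial.X i ^ n ∈ Ideal.span (insert F (Set.range fun j => MvPolynomial.pderiv j F))

/-- The polynomial `L` is the numerator of the zeta function `L(T) / ((1 - T) (1 - q T))` of the plane
curve `F = 0`. So `L(1)` is the number of rational points of the Jacobian if the curve is smooth. -/
def IsNumerator (F : MvPolynomial (Fin 3) k) (L : ℤ[X]) : Prop :=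
  projZetaInv 2 F * (L : PowerSeries ℤ) =
    (((1 - X) * (1 - C (Nat.card k : ℤ) * X) : ℤ[X]) : PowerSeries ℤ)

variable {A : Type} [CommRing A]

/-- The product `projProduct χ 2 F` over the closed points of the projective plane is a polynomial over
`A` and vanishes at `T = 1 / q`. -/
def Vanishes (χ : MulChar k A) (F : MvPolynomial (Fin 3) k) : Prop :=
  ∃ H : A[X], projProduct χ 2 F = (((1 - C (Nat.card k : A) * X) * H : A[X]) : PowerSeries A)

theorem dvd_card [Finite k] {ℓ a : ℕ} (ha : a ≠ 0) {χ : MulChar k A}
    (hχ : orderOf χ = ℓ ^ a) : ℓ ∣ Nat.card k - 1 := by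
  have h1 : χ ^ (Nat.card k - 1) = 1 := by
    have hk1 : 1 < Nat.card k := Finite.one_lt_card
    apply MulChar.ext
    intro a
    have := Fintype.ofFinite k
    rw [MulChar.pow_apply' χ (by omega), MulChar.one_apply a.isUnit, ← map_pow,
      Nat.card_eq_fintype_card, FiniteField.pow_card_sub_one_eq_one _ a.ne_zero, map_one]
  have h2 := orderOf_dvd_of_pow_eq_one h1
  rw [hχ] at h2
  exact (dvd_pow_self ℓ ha).trans h2

/-- The kernel of a character of order `N` consists of `N`-th powers. -/
theorem exists_root [Finite k] {N : ℕ} {χ : MulChar k A} (hχ : orderOf χ = N) {x : k}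
    (hx : x ≠ 0) (h : χ x = 1) : ∃ w : k, x = w ^ N := by
  obtain ⟨g, hg⟩ := IsCyclic.exists_generator (α := kˣ)
  obtain ⟨n, hn⟩ := mem_powers_iff_mem_zpowers.2 (hg (Units.mk0 x hx))
  have hn' : g ^ n = Units.mk0 x hx := hn
  have h1 : χ (g : k) ^ n = 1 := by
    rw [← map_pow, ← Units.val_pow_eq_pow_val, hn', Units.val_mk0, h]
  have h2 : χ ^ n = 1 := by
    rcases Nat.eq_zero_or_pos n with h0 | h0
    · rw [h0, pow_zero]
    apply MulChar.ext
    intro b
    obtain ⟨m, hm⟩ := mem_powers_iff_mem_zpowers.2 (hg b)
    have hm' : g ^ m = b := hm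
    rw [MulChar.pow_apply' χ h0.ne', MulChar.one_apply b.isUnit, ← hm',
      Units.val_pow_eq_pow_val, map_pow, ← pow_mul, mul_comm, pow_mul, h1, one_pow]
  obtain ⟨s, hs⟩ := (hχ ▸ orderOf_dvd_of_pow_eq_one h2 : N ∣ n)
  refine ⟨((g ^ s : kˣ) : k), ?_⟩
  rw [← Units.val_pow_eq_pow_val, ← pow_mul, mul_comm s N, ← hs, hn', Units.val_mk0]

end defs

/-- **The Tate conjecture for smooth cyclic coverings of the plane.**

Let `ℓ` be a prime, `k` a finite field with `q` elements and `χ` a character of `kˣ` of order
`N = ℓ ^ a > 1` (so `N` divides `q - 1`), with values in an integral domain `A` of characteristic zero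
which is integral over the integers, for instance in the ring of all algebraic integers. Let `B` be a
smooth plane curve `F(x_0, x_1, x_2) = 0` of degree `d` divisible by `N`, with the zeta function
`L(T) / ((1 - T) (1 - q T))`; so `L(1)` is the number of rational points of the Jacobian of `B`. For
`u` in `kˣ` let `X_u` be the surface `w ^ N = u F(x_0, x_1, x_2)` (in a weighted projective space, with
`w` of weight `d / N`; for `d = N` in projective space). It is smooth and projective, a cyclic covering
of the plane branched over the ample smooth curve `B`, and it is geometrically simply connected. If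
`d ≥ 5` and `N = d`, and if `d ≥ 8` and `N = 2`, it is of general type.

The second cohomology of `X_u` over an algebraic closure is the sum of that of the plane, generated by
the class of a divisor, and of the cohomology `V_ψ(u)` of the complement of `B` with coefficients in
the Kummer sheaves for `u F` of the characters `ψ ≠ 1` with `ψ ^ N = 1`; its other cohomology is that
of the plane. The function `projProduct ψ 2 (u F)` is the characteristic polynomial
`det(1 - T Φ)` of Frobenius on `V_ψ(u)`, of degree `d ^ 2 - 3 d + 3`, and its inverse zeros have the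
absolute value `q`.

Theorem. Let `L(1)` be prime to `ℓ`. Let `u` and `v` be elements of `kˣ` for which `q` is an eigenvalue
of Frobenius on `V_χ(u)` and on `V_χ(v)`. Then `u / v` is an `N`-th power: there is at most one class
`u` of twists for which `q` is an eigenvalue. (For a single `u` the multiplicity of the eigenvalue `q`
is at most one by `MP_1fe969_ag.TateEigenvalueModP`.)

Consequence for the question. Let `L(1)` be prime to `ℓ`. The theorem applies also to the characters
of order `ℓ ^ b`, `1 ≤ b ≤ a`, and the polynomials for two characters of the same order are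
conjugate. So for each `b` the number `q` is an eigenvalue of Frobenius on the spaces `V_ψ(u)` with `ψ`
of order `ℓ ^ b` for at most `ℓ ^ (a - b)` of the `N` classes `u` modulo `N`-th powers. For the
other classes `u`, which are at least `N - (N - 1) / (ℓ - 1)` of the `N` classes (all but one if
`N = ℓ`), the eigenvalue `q` of Frobenius on the second cohomology of `X_u` has multiplicity one, and
the invariant classes are the multiples of the class of the hyperplane section: the map `c_X` of the
question is surjective for `X = X_u`, the rank of the Neron-Severi group of `X_u` is one, and its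
Brauer group is finite. -/
theorem result (ℓ : ℕ) (hℓ : ℓ.Prime) (a : ℕ) (ha : a ≠ 0) (k : Type) [Field k]
    [Finite k] (A : Type) [CommRing A] [IsDomain A] [CharZero A] [Algebra.IsIntegral ℤ A]
    (χ : MulChar k A) (hχ : orderOf χ = ℓ ^ a) (d : ℕ) (F : MvPolynomial (Fin 3) k)
    (_hF : IsSmoothCurve (ℓ ^ a) d F) (L : ℤ[X]) (hL : IsNumerator F L) :
    ¬ (ℓ : ℤ) ∣ L.eval 1 → ∀ u v : k, u ≠ 0 → v ≠ 0 →
      Vanishes χ (MvPolynomial.C u * F) → Vanishes χ (MvPolynomial.C v * F) →
      ∃ w : k, u = v * w ^ (ℓ ^ a) := by
  have hχ1 : χ ^ (ℓ ^ a) = 1 := by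
    rw [← hχ]
    exact pow_orderOf_eq_one χ
  have hL' : projZetaInv 2 F * (L : PowerSeries ℤ) =
      ((∏ e ∈ Finset.range 2, (1 - Polynomial.C ((Nat.card k : ℤ) ^ e) * Polynomial.X) :
        ℤ[X]) : PowerSeries ℤ) := by
    rw [Finset.prod_range_succ, Finset.prod_range_succ, Finset.prod_range_zero, one_mul, pow_zero,
      pow_one, C_1, one_mul]
    exact hL
  intro hL1 u v hu hv h₁ h₂
  obtain ⟨H₁, h₁⟩ := h₁
  obtain ⟨H₂, h₂⟩ := h₂
  have h3 := at_most_one hℓ (dvd_card ha hχ) hχ1 2 1 F hL' hL1 hu hv
    (by rw [pow_one]; exact h₁) (by rw [pow_one]; exact h₂)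
  have h4 : χ (u * v⁻¹) = 1 := by
    rw [map_mul, h3, ← map_mul, mul_inv_cancel₀ hv, map_one]
  obtain ⟨w, hw⟩ := exists_root hχ (mul_ne_zero hu (inv_ne_zero hv)) h4
  refine ⟨w, ?_⟩
  rw [← hw, mul_comm v, mul_assoc, inv_mul_cancel₀ hv, mul_one]

end Pool.Agent.Results.MP_1bad5e_ag.CyclicPlanes
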