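import Mathlib
import Pool.Agent.TH115.GD.Defs
import Pool.Agent.TH115.TC.HalfMain5

/-!
# The Tate conjecture at 2 for quadratic twists of positive rank

Let `k` be a field of characteristic different from 2 (for example finitely generated over its
prime field), `k'` a separable closure of `k`, `K = k(t)`, `F = k'(t)`. Let

`f = x³ + a₂ x² + a₄ x + a₆`

be a polynomial over `k[t]` such that the affine curve `C : f(x, t) = 0` is smooth over `k`
(`SmoothC`), `f` is separable over `K` and has no root in `F`. Let `N = K(θ)`, `f(θ) = 0`, be the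
function field of `C`, and `R` the integral closure of `k[t]` in `N`, with `θ` in `R`. Suppose that the
class group of `R` has no element of order two, and that all units of `R` are products of a constant
and a square.

For a squarefree polynomial `D` over `k` let `X_D` be the elliptic surface over the projective line
with the generic fibre `E_D : D(t) y² = f(x, t)`; it is geometrically simply connected. We consider
the `D` whose prime factors are inert in `C`, except those in a finite set `H`, which are half inert:
modulo `π ∈ H` the polynomial `f` is the product of `x - u` and of an irreducible quadratic polynomial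
(`HalfAt a₂ a₄ a₆ π u`). Over `π ∈ H` there is one prime `w(π)` of `R` of relative degree two
(`DegTwoOver`).

Theorem. For every nonempty subset `T` of `H` for which there is a function `z` on `C` with odd
valuations exactly at the primes `w(π)`, `π ∈ T`, suppose that there is a point of `E_D(K)` for which
the numerator of the coordinate `x` on the model `y² = x³ + D a₂ x² + D² a₄ x + D³ a₆` is divisible by
exactly the `π ∈ T` among the elements of `H`. Then every class in `V₂ Sel(E_D / F)` which is fixed by
the Galois group of `k` comes from `E_D(K)`: this is the Tate conjecture for divisors on `X_D` at the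
prime 2. Moreover, the points of `E_D(K)` for which this numerator is divisible by some `π ∈ H` have
infinite order.

For example, let `H = {π}` and `D s² = f(x₀, t)` with polynomials `x₀` and `s` over `k`: then
`(D x₀, D² s)` is such a point for `T = H`, and the rank of `E_D(K)` is one. If no set `T` as above
exists, that is, if the classes of the `w(π)`, `π ∈ H`, are independent in the class group modulo
squares, this is the Tate conjecture with rank zero.
-/

namespace Pool.Agent.Results.MP_1bad5e_ag.HalfInertTwists

open Polynomial IsDedekindDomain WeierstrassCurve WeierstrassCurve.Affine Pool.Agent.TH115.GD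
open scoped Classical

theorem result {k k' K F N R : Type} [Field k] [Field k'] [Algebra k k'] [Field K] [Algebra k[X] K]
    [Field F] [Algebra k'[X] F] [IsFractionRing k'[X] F] [Algebra K F] (hT : IsTower k k' K F)
    [Field N] [Algebra K N] [Algebra k[X] N] [IsScalarTower k[X] K N]
    [CommRing R] [IsDedekindDomain R] [Algebra R N] [IsFractionRing R N]
    [Algebra k[X] R] [IsScalarTower k[X] R N] [Algebra.IsIntegral k[X] R]
    (h2 : (2 : k) ≠ 0) {a₂ a₄ a₆ : k[X]} (hS : SmoothC a₂ a₄ a₆)
    (hΔ : (twist K a₂ a₄ a₆ 1).Δ ≠ 0) (hnr : ∀ x : F, cub (twist K a₂ a₄ a₆ 1) x ≠ 0) {θ : R}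
    (hθ : cub (twist K a₂ a₄ a₆ 1) (algebraMap R N θ) = 0)
    (hN : IntermediateField.adjoin K {algebraMap R N θ} = ⊤)
    (hcl : ∀ c : ClassGroup R, c ^ 2 = 1 → c = 1)
    (hU : ∀ ε : Rˣ, ∃ (u : k) (v : Rˣ), (ε : R) = algebraMap k[X] R (C u) * v ^ 2)
    {D : k[X]} (hD : Squarefree D) {H : Finset k[X]}
    (hH : ∀ π ∈ H, Irreducible π ∧ π ∣ D ∧ ∃ u, HalfAt a₂ a₄ a₆ π u)
    (hin : ∀ π : k[X], Irreducible π → π ∣ D →
      InertAt a₂ a₄ a₆ π ∨ ∃ π' ∈ H, Associated π' π)
    (hpts : ∀ T ⊆ H, T.Nonempty → ∀ z : N, z ≠ 0 → (∀ P : HeightOneSpectrum R,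
        IsSquare (P.valuation N z) ↔ ∀ π ∈ T, ¬ DegTwoOver a₂ a₄ a₆ θ π P) →
      ∃ (x y : K) (A B : k[X]), y ^ 2 = cub (twist K a₂ a₄ a₆ D) x ∧ IsCoprime A B ∧
        x * algebraMap k[X] K B = algebraMap k[X] K A ∧ ∀ π ∈ H, (π ∣ A ↔ π ∈ T)) :
    TateAtTwo (F := F) k' (twist K a₂ a₄ a₆ D) ∧
    (∀ (x y : K) (h : ((twist K a₂ a₄ a₆ D).baseChange K).toAffine.Nonsingular x y) (A B : k[X]),
      IsCoprime A B → x * algebraMap k[X] K B = algebraMap k[X] K A → (∃ π ∈ H, π ∣ A) →
      ∀ n : ℕ, n ≠ 0 → n • (Point.some x y h : Pt (twist K a₂ a₄ a₆ D) K) ≠ 0) := by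
  obtain ⟨h5, h6⟩ := half_tateS hT h2 hS hΔ hnr hθ hN hD hH hin
  exact ⟨h5 hcl hU hpts, h6⟩

end Pool.Agent.Results.MP_1bad5e_ag.HalfInertTwists
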