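import Mathlib
import Pool.Agent.TH115.GD.Defs
import Pool.Agent.TH115.GD.Defs2
import Pool.Agent.TH115.SD.Ind

/-!
# A bound for the number of Tate classes on elliptic surfaces by a second geometric 2-descent

Let `k` be a field of characteristic different from 2 (for example finitely generated over its
prime field), `k'` a separable closure, `K = k(t)`, `F = k'(t)`, and

`E : y² = x (x - a) (x - b)`

with coprime polynomials `a ≠ b`, not zero, such that the irreducible factors of `a b (a - b)` are
separable. Suppose that the maximum `N` of the degrees of `a` and `b` is odd (or that two of `a`, `b`,
`a - b` have an irreducible factor of odd degree and odd multiplicity).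

Let `Triples a b` be the set of the triples `(A, B, D)` of monic squarefree divisors of `a`, `b`,
`a - b` over `k` (with a condition on the parities of the degrees if `N` is even). If `N` is odd, it
has `2 ^ ω` elements, where `ω` is the number of the irreducible factors of `a b (a - b)` over `k`.
Let `Triples2 a b` be the subset of the triples for which there are constants `r`, `s` in `k` such that
`(r A B, s A D)` satisfies the conditions `SecondCond`: at each irreducible factor `π` of odd
multiplicity of `a`, `b` or `a - b` one explicit element is a square modulo `π`, and if `N` is odd, for
one of the points of order two two leading coefficients are squares.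

Theorem. If `Triples2 a b` has at most `2 ^ (d + 2)` elements, then `V₂ Sel(E / F)^{G_k}` is generated
by `d` elements.

The first geometric 2-descent bounds the number of generators by the number of all triples. The
second one uses that the class of a Tate class modulo 2 lifts to a Galois-invariant class modulo 4:
the comparison of a lift with its conjugates defines two quadratic characters of the Galois group of
the constants, given by constants `r` and `s`, and the local triviality of the lift gives the
conditions `SecondCond`. For general `a`, `b` these conditions leave only the triples of the
points of `E(K)`.
-/

namespace Pool.Agent.Results.MP_1bad5e_ag.SecondDescentBound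

open Polynomial Pool.Agent.TH115.GD

theorem result {k k' K F : Type} [Field k] [Field k'] [Algebra k k'] [Field K] [Algebra k[X] K]
    [Field F] [Algebra k'[X] F] [IsFractionRing k'[X] F] [Algebra K F] (hT : IsTower k k' K F)
    (h2 : (2 : k) ≠ 0) {a b : k[X]} (ha : a ≠ 0) (hb : b ≠ 0) (hab : a ≠ b) (hco : IsCoprime a b)
    (hsep : ∀ π : k[X], Irreducible π → π ∣ a * b * (a - b) → π.Separable)
    (hodd : Odd (max a.natDegree b.natDegree) ∨ TwoOddFactors a b)
    {d : ℕ} (hd : (Triples2 a b).encard ≤ 2 ^ (d + 2)) :
    GeneratedBy (F := F) k' (crv (algebraMap k[X] K a) (algebraMap k[X] K b)) d :=
  bound2 hT h2 ha hb hab hco hsep hodd hd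

end Pool.Agent.Results.MP_1bad5e_ag.SecondDescentBound
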