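import Mathlib
import Pool.Agent.TH115.GD.Defs
import Pool.Agent.TH115.GD.Rk3

/-!
# The Tate conjecture at 2 for Legendre surfaces with a section of infinite order

Let `k` be a field of characteristic different from 2 (for example finitely generated over its
prime field), `k'` a separable closure, `K = k(t)`, `F = k'(t)`. Let `h`, `w` be polynomials over `k`,
`h` of odd degree, `w` not constant, such that

`h`, `h - 1`, `1 - (h - 1) w²`, `1 - h w²`

are irreducible and separable. Put `g = h (1 - (h - 1) w²)`; then `1 - g = (1 - h) (1 - h w²)`. Let
`X` be the elliptic surface over the projective line with the generic fibre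

`E : y² = x (x - 1) (x - g)`,

the Legendre curve with `λ = g`. It is simply connected, with `2 deg g` fibres of type `I₂` and a
fibre of type `I_{2 deg g}` at infinity, and its geometric genus `deg g / 2 - 1` is not bounded.
The point `(h, h (h - 1) w)` is a section of infinite order.

Theorem. Every class in `V₂ Sel(E / F)` which is fixed by the Galois group of `k` comes from `E(K)`.

As `Br(X ⊗ k') = Ш(E / F)` up to `p`-torsion (Grothendieck), this is the Tate conjecture for
divisors on `X` at the prime 2.
-/

namespace Pool.Agent.Results.MP_1bad5e_ag.TateLegendreRankOne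

open Polynomial Pool.Agent.TH115.GD

theorem result {k k' K F : Type} [Field k] [Field k'] [Algebra k k'] [Field K] [Algebra k[X] K]
    [Field F] [Algebra k'[X] F] [IsFractionRing k'[X] F] [Algebra K F] (hT : IsTower k k' K F)
    (h2 : (2 : k) ≠ 0) {h w : k[X]} (hw : 0 < w.natDegree) (hodd : Odd h.natDegree)
    (hgood : ∀ f ∈ ({h, 1 - (h - 1) * w ^ 2, h - 1, 1 - h * w ^ 2} : Set k[X]),
      Irreducible f ∧ f.Separable) :
    TateAtTwo (F := F) k'
      (crv (algebraMap k[X] K 1) (algebraMap k[X] K (h * (1 - (h - 1) * w ^ 2)))) :=
  legendre hT h2 hw hodd hgood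

end Pool.Agent.Results.MP_1bad5e_ag.TateLegendreRankOne
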